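import Pool.Agent.Lib.NSW91.Fin

namespace Pool.Agent.Results.MP_927e73_nt.LucasPowerSaving

theorem result : ∃ δ : ℝ, 0 < δ ∧ ∀ (α β : ℂ) (R Q : ℤ), (α + β) ^ 2 = R → α * β = Q →
    Q ≠ 0 → (∀ k : ℕ, 0 < k → (α / β) ^ k ≠ 1) → ∃ N : ℕ, ∀ n : ℕ, N ≤ n →
      ∃ q : ℕ, q.Prime ∧ (n : ℝ) ^ (1 + δ) < q ∧
        (∃ m : ℤ, ∏ ζ ∈ primitiveRoots n ℂ, (α - ζ * β) = q * m) ∧
        ∀ (d : ℕ) (x : ℤ), d ∣ n → d < n → α ^ n - β ^ n = x * (α ^ d - β ^ d) → (q : ℤ) ∣ x :=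
  Pool.Agent.Lib.NSW91.power_saving

end Pool.Agent.Results.MP_927e73_nt.LucasPowerSaving
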