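import Pool.Agent.Lib.AP.All1
import Pool.Agent.Lib.AP.NumAll

namespace Pool.Agent.Results.MP_927e73_nt.PastOneThird

theorem result : ∃ δ : ℝ, 0 < δ ∧ ∃ K : ℕ, ∀ D : ℝ, 0 < D → Irrational (√D) →
    {p : ℕ | p.Prime ∧ ∃ r : ℕ, r.primeFactorsList.length ≤ K ∧
      0 < D * (r : ℝ) ^ 2 - (p : ℝ) ^ 2 ∧
        D * (r : ℝ) ^ 2 - (p : ℝ) ^ 2 ≤ (p : ℝ) ^ (2 / 3 - δ)}.Infinite :=
  Pool.Agent.Lib.AP.fin2_of_NUM Pool.Agent.Lib.AP.X.st_NUM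

end Pool.Agent.Results.MP_927e73_nt.PastOneThird
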