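import Pool.Agent.Lib.MP_927e73_nt.Main

namespace Pool.Agent.Results.MP_927e73_nt.RoughSolutions

open Classical in
theorem result :
    ∀ p r : ℕ → ℕ, (∀ k, (p k : ℝ) + r k * √2 = (1 + √2) ^ (2 * k + 1)) →
      ∀ ε : ℝ, 0 < ε → ∃ c : ℝ, 0 < c ∧ ∀ x : ℕ, 300 ≤ x →
        (((Finset.range (x + 1)).filter (fun k => (2 * k + 1).Prime ∧
          ∃ q : ℕ, q.Prime ∧ q ∣ p k * r k ∧
            (q : ℝ) ≤ c * Real.log (p k) * Real.log (Real.log (p k)))).card : ℝ) ≤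
        ε * (((Finset.range (x + 1)).filter (fun k => (2 * k + 1).Prime)).card : ℝ) :=
  Pool.Agent.Lib.MP_927e73_nt.density

end Pool.Agent.Results.MP_927e73_nt.RoughSolutions
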