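import Pool.Agent.Lib.NSW13.Main

namespace Pool.Agent.Results.MP_927e73_nt.SmoothPart

theorem result : ∃ δ : ℝ, 0 < δ ∧ ∃ N : ℕ, ∀ p r : ℕ, N ≤ p →
    (p : ℤ) ^ 2 - 2 * (r : ℤ) ^ 2 = -1 → ∃ a b : ℕ, p * r = a * b ∧
      (a : ℝ) ≤ Real.exp (Real.log p ^ (1 - δ)) ∧
      ∀ q : ℕ, q.Prime → q ∣ b → Real.log p ^ (1 + δ) < q :=
  Pool.Agent.Lib.NSW13.smooth

end Pool.Agent.Results.MP_927e73_nt.SmoothPart
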